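import Pool.Agent.X42.StarPCG

/-!
# The star number is unbounded on forests
-/

set_option autoImplicit false

namespace Pool.Agent.Results.MP_90e7d5_co.Unbounded

open Pool.Agent.X42.StarPCG

/-- For every `c` there is a finite acyclic graph which is not a star-`k`-PCG for any `k ≤ c`. -/
theorem result : ∀ c : ℕ, ∃ (V : Type) (_ : Finite V) (G : SimpleGraph V),
    G.IsAcyclic ∧ ∀ k ≤ c, ¬ IsStarPCG k G :=
  fun c => ⟨TV (2 * c + 1) (c + 1), finite_TV _ _, tree (2 * c + 1) (c + 1), tree_acyclic _ _,
    fun _ hk => not_isStarPCG hk⟩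

end Pool.Agent.Results.MP_90e7d5_co.Unbounded
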